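import Pool.Agent.X103.H1Line

/-!
# MP_a38b16_an, Q1: minimizers on the Nehari-type set need not be solutions

`N = 1`, `Ω = ℝ`, `λ₂ = μ₂ = 1`, `λ₁ > 0` arbitrary with `λ₁ ≠ 1`, `μ₁ = k²` and
`β = √(μ₁ μ₂) = k` with `k = (1 + 3 λ₁) / 4`. With `ω(x) = √2 / cosh x` all pairs
`(c ω / √k, s ω)`, `c² + s² = 1`, `c, s > 0`, minimize the energy on the Nehari-type set, and none
of them solves the system.
-/

set_option autoImplicit false

open MeasureTheory Set Filter Topology

namespace Pool.Agent.Results.MP_a38b16_an.NotNaturalConstraint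

open Pool.Agent.X103.H1L

/-- `∫ (|w'|² + λ w²)`. -/
noncomputable def nrm (lam : ℝ) (w w' : ℝ → ℝ) : ℝ := ∫ x, (w' x ^ 2 + lam * w x ^ 2)

/-- The energy `E_β(u, v)`; `u'`, `v'` are the weak derivatives. -/
noncomputable def energy (l1 l2 m1 m2 β : ℝ) (u u' v v' : ℝ → ℝ) : ℝ :=
  (nrm l1 u u' + nrm l2 v v') / 2 -
    1 / 4 * ∫ x, (m1 * u x ^ 4 + 2 * β * (u x ^ 2 * v x ^ 2) + m2 * v x ^ 4)

/-- `(u, v) ∈ 𝒩_β`. -/
structure InNehari (l1 l2 m1 m2 β : ℝ) (u u' v v' : ℝ → ℝ) : Prop where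
  memU : MemH1 u u'
  memV : MemH1 v v'
  neU : ¬ u =ᵐ[volume] 0
  neV : ¬ v =ᵐ[volume] 0
  eqU : nrm l1 u u' = ∫ x, (m1 * u x ^ 4 + β * (u x ^ 2 * v x ^ 2))
  eqV : nrm l2 v v' = ∫ x, (m2 * v x ^ 4 + β * (u x ^ 2 * v x ^ 2))

/-- `(u, v)` is a weak solution of the system. -/
structure IsWeakSol (l1 l2 m1 m2 β : ℝ) (u u' v v' : ℝ → ℝ) : Prop where
  eq1 : ∀ φ, IsTest φ → ∫ x, (u' x * deriv φ x + l1 * (u x * φ x)) =
    ∫ x, (m1 * u x ^ 3 + β * (u x * v x ^ 2)) * φ x
  eq2 : ∀ φ, IsTest φ → ∫ x, (v' x * deriv φ x + l2 * (v x * φ x)) =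
    ∫ x, (m2 * v x ^ 3 + β * (v x * u x ^ 2)) * φ x

/-! ### The lower bound -/

lemma int_cross {u v : ℝ → ℝ} (hu : AEStronglyMeasurable u volume)
    (hv : AEStronglyMeasurable v volume) (hu4 : Integrable (fun x => u x ^ 4) volume)
    (hv4 : Integrable (fun x => v x ^ 4) volume) :
    Integrable (fun x => u x ^ 2 * v x ^ 2) volume := by
  refine (hu4.add hv4).mono' ((hu.pow 2).mul (hv.pow 2)) (Eventually.of_forall fun x => ?_)
  simp only [Pi.add_apply]
  rw [Real.norm_of_nonneg (by positivity)]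
  nlinarith [sq_nonneg (u x ^ 2 - v x ^ 2), sq_nonneg (u x ^ 2 + v x ^ 2)]

lemma cauchy {u v : ℝ → ℝ} (hu : AEStronglyMeasurable u volume)
    (hv : AEStronglyMeasurable v volume) (hu4 : Integrable (fun x => u x ^ 4) volume)
    (hv4 : Integrable (fun x => v x ^ 4) volume) :
    (∫ x, u x ^ 2 * v x ^ 2) ^ 2 ≤ (∫ x, u x ^ 4) * ∫ x, v x ^ 4 := by
  have hc := int_cross hu hv hu4 hv4
  set X := ∫ x, u x ^ 2 * v x ^ 2
  set U := ∫ x, u x ^ 4
  set W := ∫ x, v x ^ 4
  have key : ∀ t : ℝ, 0 ≤ U - 2 * t * X + t ^ 2 * W := by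
    intro t
    have h1 : 0 ≤ ∫ x, (u x ^ 2 - t * v x ^ 2) ^ 2 := integral_nonneg fun x => sq_nonneg _
    have h2 : ∀ x, (u x ^ 2 - t * v x ^ 2) ^ 2 =
        (u x ^ 4 - (2 * t) * (u x ^ 2 * v x ^ 2)) + t ^ 2 * v x ^ 4 := fun x => by ring
    simp only [h2] at h1
    have e1 : Integrable (fun x => u x ^ 4 - (2 * t) * (u x ^ 2 * v x ^ 2)) volume :=
      hu4.sub (hc.const_mul _)
    rwa [integral_add e1 (hv4.const_mul _), integral_sub hu4 (hc.const_mul _),
      integral_const_mul, integral_const_mul] at h1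
  have hU : 0 ≤ U := integral_nonneg fun x => by positivity
  have hW : 0 ≤ W := integral_nonneg fun x => by positivity
  rcases hW.eq_or_lt with h | h
  · rw [← h, mul_zero]
    by_contra h3
    push Not at h3
    have hX : X ≠ 0 := by
      intro h4; rw [h4] at h3; simp at h3
    have h5 := key ((U + 1) / (2 * X))
    rw [← h] at h5
    have h6 : 2 * ((U + 1) / (2 * X)) * X = U + 1 := by field_simp
    rw [h6] at h5
    linarith
  · have h5 := key (X / W)
    have h6 : U - 2 * (X / W) * X + (X / W) ^ 2 * W = (U * W - X ^ 2) / W := by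
      field_simp; ring
    rw [h6] at h5
    have h7 := (div_nonneg_iff.1 h5)
    rcases h7 with h7 | h7
    · linarith [h7.1]
    · linarith [h7.2]

lemma lower {l1 k : ℝ} (hk : 0 < k) {u u' v v' : ℝ → ℝ}
    (h : InNehari l1 1 (k ^ 2) 1 k u u' v v') :
    4 / 3 ≤ energy l1 1 (k ^ 2) 1 k u u' v v' := by
  obtain ⟨hu4, -, -⟩ := h.memU.sharp
  obtain ⟨hv4, -, hsh⟩ := h.memV.sharp
  have hc := int_cross h.memU.memLp.1 h.memV.memLp.1 hu4 hv4
  have hcs := cauchy h.memU.memLp.1 h.memV.memLp.1 hu4 hv4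
  have hn1 : nrm 1 v v' = (∫ x, v' x ^ 2) + ∫ x, v x ^ 2 := by
    unfold nrm
    simp only [one_mul]
    exact integral_add h.memV.memLp_deriv.integrable_sq h.memV.memLp.integrable_sq
  have e1 := h.eqU
  have e2 := h.eqV
  rw [integral_add (hu4.const_mul _) (hc.const_mul _), integral_const_mul,
    integral_const_mul] at e1
  rw [integral_add (hv4.const_mul _) (hc.const_mul _), integral_const_mul,
    integral_const_mul] at e2
  have e3 : ∫ x, (k ^ 2 * u x ^ 4 + 2 * k * (u x ^ 2 * v x ^ 2) + 1 * v x ^ 4) =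
      k ^ 2 * (∫ x, u x ^ 4) + 2 * k * (∫ x, u x ^ 2 * v x ^ 2) + 1 * ∫ x, v x ^ 4 := by
    have i1 : Integrable (fun x => k ^ 2 * u x ^ 4 + 2 * k * (u x ^ 2 * v x ^ 2)) volume :=
      (hu4.const_mul _).add (hc.const_mul _)
    rw [integral_add i1 (hv4.const_mul _), integral_add (hu4.const_mul _) (hc.const_mul _),
      integral_const_mul, integral_const_mul, integral_const_mul]
  unfold energy
  rw [e3, e1, e2]
  rw [hn1] at e2
  rw [e2] at hsh
  set X := ∫ x, u x ^ 2 * v x ^ 2 with hX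
  set U := ∫ x, u x ^ 4 with hU
  set W := ∫ x, v x ^ 4 with hW
  have hWpos : 0 < W := by
    refine lt_of_le_of_ne (integral_nonneg fun x => by positivity) fun h0 => h.neV ?_
    have h1 := (integral_eq_zero_iff_of_nonneg (fun x => by positivity) hv4).1 h0.symm
    filter_upwards [h1] with x hx
    exact pow_eq_zero_iff (by norm_num) |>.1 hx
  have h4 : 16 / 3 * W ≤ (k ^ 2 * U + 2 * k * X + W) * W := by
    have h5 : k ^ 2 * X ^ 2 ≤ k ^ 2 * (U * W) := mul_le_mul_of_nonneg_left hcs (by positivity)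
    nlinarith
  have h5 := le_of_mul_le_mul_right h4 hWpos
  linarith

/-! ### The function `ω = √2 / cosh` -/

/-- `ω`. -/
noncomputable def om (x : ℝ) : ℝ := √2 * (Real.cosh x)⁻¹
/-- `ω'`. -/
noncomputable def om' (x : ℝ) : ℝ := -(√2 * (Real.sinh x / Real.cosh x ^ 2))
/-- `ω''`. -/
noncomputable def om'' (x : ℝ) : ℝ := om x - om x ^ 3

lemma ch (x : ℝ) : 0 < Real.cosh x := Real.cosh_pos x
lemma ch2 (x : ℝ) : Real.sinh x ^ 2 = Real.cosh x ^ 2 - 1 := by rw [Real.cosh_sq]; ring
lemma s2 : √2 ^ 2 = (2:ℝ) := Real.sq_sqrt (by norm_num)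

lemma om_deriv (x : ℝ) : HasDerivAt om (om' x) x := by
  have h := ((Real.hasDerivAt_cosh x).inv (ch x).ne').const_mul (√2)
  refine HasDerivAt.congr_deriv h ?_
  unfold om'; ring

lemma om'_deriv (x : ℝ) : HasDerivAt om' (om'' x) x := by
  have hc := (ch x).ne'
  have h := (((Real.hasDerivAt_sinh x).div ((Real.hasDerivAt_cosh x).pow 2)
    (pow_ne_zero 2 hc)).const_mul (√2)).neg
  refine HasDerivAt.congr_deriv h ?_
  unfold om'' om
  have h2 := ch2 x
  have h3 := s2
  have h4 : √2 ^ 3 = 2 * √2 := by rw [pow_succ, h3]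
  rw [mul_pow, h4]
  simp only [Pi.pow_apply]
  field_simp
  norm_num
  have h5 : Real.sinh x * (2 * Real.cosh x * Real.sinh x) = 2 * Real.cosh x * (Real.cosh x ^ 2 - 1) := by
    rw [← h2]; ring
  nlinarith [h5]

lemma continuous_om : Continuous om := continuous_iff_continuousAt.2 fun x => (om_deriv x).continuousAt
lemma continuous_om' : Continuous om' :=
  continuous_iff_continuousAt.2 fun x => (om'_deriv x).continuousAt

lemma one_add_le (x : ℝ) : 1 + x ^ 2 ≤ Real.cosh x ^ 2 := by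
  rw [Real.cosh_sq]
  have h : x ^ 2 ≤ Real.sinh x ^ 2 := by
    rw [← sq_abs x, ← sq_abs (Real.sinh x)]
    apply pow_le_pow_left₀ (abs_nonneg _)
    rcases le_total 0 x with h | h
    · rw [abs_of_nonneg h]
      exact (Real.self_le_sinh_iff.2 h).trans (le_abs_self _)
    · rw [abs_of_nonpos h]
      have := Real.self_le_sinh_iff.2 (neg_nonneg.2 h)
      rw [Real.sinh_neg] at this
      exact this.trans (neg_le_abs _)
  linarith

lemma sech_le (x : ℝ) : (Real.cosh x ^ 2)⁻¹ ≤ (1 + x ^ 2)⁻¹ :=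
  inv_anti₀ (by positivity) (one_add_le x)

lemma sech4_le (x : ℝ) : (Real.cosh x ^ 4)⁻¹ ≤ (1 + x ^ 2)⁻¹ := by
  refine le_trans (inv_anti₀ (by have := ch x; positivity) ?_) (sech_le x)
  have h1 : 1 ≤ Real.cosh x ^ 2 := by have := one_add_le x; nlinarith [sq_nonneg x]
  nlinarith

lemma cont_s2 : Continuous fun x : ℝ => (Real.cosh x ^ 2)⁻¹ :=
  (Real.continuous_cosh.pow 2).inv₀ fun x => pow_ne_zero 2 (ch x).ne'
lemma cont_s4 : Continuous fun x : ℝ => (Real.cosh x ^ 4)⁻¹ :=
  (Real.continuous_cosh.pow 4).inv₀ fun x => pow_ne_zero 4 (ch x).ne'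

lemma int_s2 : Integrable (fun x : ℝ => (Real.cosh x ^ 2)⁻¹) volume :=
  integrable_inv_one_add_sq.mono' cont_s2.aestronglyMeasurable (Eventually.of_forall fun x => by
    rw [Real.norm_of_nonneg (by positivity)]; exact sech_le x)
lemma int_s4 : Integrable (fun x : ℝ => (Real.cosh x ^ 4)⁻¹) volume :=
  integrable_inv_one_add_sq.mono' cont_s4.aestronglyMeasurable (Eventually.of_forall fun x => by
    rw [Real.norm_of_nonneg (by positivity)]; exact sech4_le x)

/-- `tanh`. -/
noncomputable def th (x : ℝ) : ℝ := Real.sinh x / Real.cosh x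

lemma th_deriv (x : ℝ) : HasDerivAt th (Real.cosh x ^ 2)⁻¹ x := by
  have h := (Real.hasDerivAt_sinh x).div (Real.hasDerivAt_cosh x) (ch x).ne'
  refine HasDerivAt.congr_deriv h ?_
  have := ch2 x
  have h3 : Real.cosh x * Real.cosh x - Real.sinh x * Real.sinh x = 1 := by nlinarith
  rw [h3, one_div]

lemma th_sq (x : ℝ) : th x ^ 2 = 1 - (Real.cosh x ^ 2)⁻¹ := by
  unfold th
  have := (ch x).ne'
  rw [div_pow, ch2]
  field_simp

lemma th_top : Tendsto th atTop (𝓝 1) := by
  have h1 : ∀ x, th x = 1 - Real.exp (-x) * (Real.cosh x)⁻¹ := by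
    intro x
    have := (ch x).ne'
    unfold th
    have h2 : Real.sinh x = Real.cosh x - Real.exp (-x) := by
      rw [Real.sinh_eq, Real.cosh_eq]; ring
    rw [h2]; field_simp
  have h2 : Tendsto (fun x : ℝ => Real.exp (-x) * (Real.cosh x)⁻¹) atTop (𝓝 0) := by
    refine squeeze_zero (fun x => by have := ch x; positivity) (fun x => ?_)
      Real.tendsto_exp_neg_atTop_nhds_zero
    have h3 : (Real.cosh x)⁻¹ ≤ 1 := inv_le_one_of_one_le₀ (Real.one_le_cosh x)
    have := Real.exp_pos (-x)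
    nlinarith
  have h3 := h2.const_sub 1
  simp only [sub_zero] at h3
  exact h3.congr fun x => (h1 x).symm

lemma th_neg (x : ℝ) : th (-x) = -th x := by
  unfold th; rw [Real.sinh_neg, Real.cosh_neg]; ring

lemma th_bot : Tendsto th atBot (𝓝 (-1)) := by
  have h := (th_top.comp tendsto_neg_atBot_atTop).neg
  refine h.congr fun x => ?_
  show -th (-x) = th x
  rw [th_neg, neg_neg]

lemma val_s2 : ∫ x : ℝ, (Real.cosh x ^ 2)⁻¹ = 2 := by
  rw [integral_of_hasDerivAt_of_tendsto th_deriv int_s2 th_bot th_top]; norm_num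

lemma val_s4 : ∫ x : ℝ, (Real.cosh x ^ 4)⁻¹ = 4 / 3 := by
  have hd : ∀ x, HasDerivAt (fun x => th x - th x ^ 3 / 3) (Real.cosh x ^ 4)⁻¹ x := by
    intro x
    have h := (th_deriv x).sub (((th_deriv x).pow 3).div_const 3)
    refine HasDerivAt.congr_deriv h ?_
    have h1 := th_sq x
    have := (ch x).ne'
    simp only [Nat.add_one_sub_one]
    push_cast
    rw [h1]
    field_simp
    ring
  have ht := th_top.sub ((th_top.pow 3).div_const 3)
  have hb := th_bot.sub ((th_bot.pow 3).div_const 3)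
  rw [integral_of_hasDerivAt_of_tendsto hd int_s4 hb ht]; norm_num

lemma om_sq (x : ℝ) : om x ^ 2 = 2 * (Real.cosh x ^ 2)⁻¹ := by
  unfold om; rw [mul_pow, s2, inv_pow]
lemma om_four (x : ℝ) : om x ^ 4 = 4 * (Real.cosh x ^ 4)⁻¹ := by
  have h : om x ^ 4 = (om x ^ 2) ^ 2 := by ring
  rw [h, om_sq, mul_pow, inv_pow, ← pow_mul]; norm_num
lemma om'_sq (x : ℝ) : om' x ^ 2 = 2 * (Real.cosh x ^ 2)⁻¹ - 2 * (Real.cosh x ^ 4)⁻¹ := by
  unfold om'
  have := (ch x).ne'
  rw [neg_sq, mul_pow, s2, div_pow, ch2]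
  field_simp

lemma int_om_sq : Integrable (fun x => om x ^ 2) volume := by
  simp only [om_sq]; exact int_s2.const_mul 2
lemma int_om_four : Integrable (fun x => om x ^ 4) volume := by
  simp only [om_four]; exact int_s4.const_mul 4
lemma int_om'_sq : Integrable (fun x => om' x ^ 2) volume := by
  simp only [om'_sq]; exact (int_s2.const_mul 2).sub (int_s4.const_mul 2)
lemma val_om_sq : ∫ x, om x ^ 2 = 4 := by
  simp only [om_sq]; rw [integral_const_mul, val_s2]; norm_num
lemma val_om_four : ∫ x, om x ^ 4 = 16 / 3 := by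
  simp only [om_four]; rw [integral_const_mul, val_s4]; norm_num
lemma val_om'_sq : ∫ x, om' x ^ 2 = 4 / 3 := by
  simp only [om'_sq]
  rw [integral_sub (int_s2.const_mul 2) (int_s4.const_mul 2), integral_const_mul,
    integral_const_mul, val_s2, val_s4]
  norm_num

lemma mem_om : MemLp om 2 volume :=
  (memLp_two_iff_integrable_sq continuous_om.aestronglyMeasurable).2 int_om_sq
lemma mem_om' : MemLp om' 2 volume :=
  (memLp_two_iff_integrable_sq continuous_om'.aestronglyMeasurable).2 int_om'_sq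

/-- Integration by parts. -/
lemma parts {f f' : ℝ → ℝ} (hd : ∀ x, HasDerivAt f (f' x) x) (hf' : Continuous f') {φ : ℝ → ℝ}
    (hφ : IsTest φ) : ∫ x, f x * deriv φ x = -∫ x, f' x * φ x := by
  have hf : Continuous f := continuous_iff_continuousAt.2 fun x => (hd x).continuousAt
  have hφd : ∀ x, HasDerivAt φ (deriv φ x) x := fun x =>
    (hφ.1.differentiable (by simp) x).hasDerivAt
  exact integral_mul_deriv_eq_deriv_mul_of_integrable (fun x _ => hd x) (fun x _ => hφd x)
    (int_mul_test hf.locallyIntegrable hφ.der) (int_mul_test hf'.locallyIntegrable hφ)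
    (int_mul_test hf.locallyIntegrable hφ)

lemma memH1_om (a : ℝ) : MemH1 (fun x => a * om x) (fun x => a * om' x) where
  memLp := mem_om.const_mul a
  memLp_deriv := mem_om'.const_mul a
  weak := fun _ hφ => parts (fun x => (om_deriv x).const_mul a) (continuous_om'.const_mul a) hφ

lemma om_zero : om 0 = √2 := by simp [om]

lemma om_pos (x : ℝ) : 0 < om x := by have := ch x; unfold om; positivity

lemma ne_zero {a : ℝ} (ha : a ≠ 0) : ¬ (fun x => a * om x) =ᵐ[volume] 0 := by
  intro h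
  have h1 : (fun x => a * om x) = 0 := by
    apply Continuous.ae_eq_iff_eq volume (continuous_om.const_mul a) continuous_zero |>.1 h
  have h2 := congrFun h1 0
  simp only [Pi.zero_apply, mul_eq_zero] at h2
  rcases h2 with h2 | h2
  · exact ha h2
  · exact (om_pos 0).ne' h2

lemma nrm_om (lam a : ℝ) : nrm lam (fun x => a * om x) (fun x => a * om' x) =
    a ^ 2 * (4 / 3 + 4 * lam) := by
  unfold nrm
  have h : ∀ x, (a * om' x) ^ 2 + lam * (a * om x) ^ 2 =
      a ^ 2 * om' x ^ 2 + (lam * a ^ 2) * om x ^ 2 := fun x => by ring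
  simp only [h]
  rw [integral_add (int_om'_sq.const_mul _) (int_om_sq.const_mul _), integral_const_mul,
    integral_const_mul, val_om_sq, val_om'_sq]
  ring

/-- The pair. -/
theorem example_nehari {l1 k a s : ℝ} (hl : l1 = (4 * k - 1) / 3) (ha : 0 < a)
    (hs : 0 < s) (h : k * a ^ 2 + s ^ 2 = 1) :
    InNehari l1 1 (k ^ 2) 1 k (fun x => a * om x) (fun x => a * om' x) (fun x => s * om x)
      (fun x => s * om' x) where
  memU := memH1_om a
  memV := memH1_om s
  neU := ne_zero ha.ne'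
  neV := ne_zero hs.ne'
  eqU := by
    rw [nrm_om]
    have h1 : ∀ x, k ^ 2 * (a * om x) ^ 4 + k * ((a * om x) ^ 2 * (s * om x) ^ 2) =
        (k * a ^ 2 * (k * a ^ 2 + s ^ 2)) * om x ^ 4 := fun x => by ring
    simp only [h1]
    rw [integral_const_mul, val_om_four, h, hl]
    ring
  eqV := by
    rw [nrm_om]
    have h1 : ∀ x, 1 * (s * om x) ^ 4 + k * ((a * om x) ^ 2 * (s * om x) ^ 2) =
        (s ^ 2 * (k * a ^ 2 + s ^ 2)) * om x ^ 4 := fun x => by ring
    simp only [h1]
    rw [integral_const_mul, val_om_four, h]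
    ring

theorem example_energy {l1 k a s : ℝ} (hl : l1 = (4 * k - 1) / 3)
    (h : k * a ^ 2 + s ^ 2 = 1) :
    energy l1 1 (k ^ 2) 1 k (fun x => a * om x) (fun x => a * om' x) (fun x => s * om x)
      (fun x => s * om' x) = 4 / 3 := by
  unfold energy
  rw [nrm_om, nrm_om]
  have h1 : ∀ x, k ^ 2 * (a * om x) ^ 4 + 2 * k * ((a * om x) ^ 2 * (s * om x) ^ 2) +
      1 * (s * om x) ^ 4 = (k * a ^ 2 + s ^ 2) ^ 2 * om x ^ 4 := fun x => by ring
  simp only [h1]
  rw [integral_const_mul, val_om_four, h, hl]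
  have h2 : s ^ 2 = 1 - k * a ^ 2 := by linarith
  rw [h2]
  ring

theorem example_not_sol {l1 k a s : ℝ} (hk1 : k ≠ 1) (hl : l1 = (4 * k - 1) / 3)
    (ha : 0 < a) (h : k * a ^ 2 + s ^ 2 = 1) :
    ¬ IsWeakSol l1 1 (k ^ 2) 1 k (fun x => a * om x) (fun x => a * om' x) (fun x => s * om x)
      (fun x => s * om' x) := by
  intro hw
  -- the residual
  set r : ℝ → ℝ := fun x => (k - 1) * (4 / 3 * om x - om x ^ 3) with hr
  have hrc : Continuous r := by
    have := continuous_om
    fun_prop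
  have h1 : ∀ φ : ℝ → ℝ, ContDiff ℝ (⊤ : ℕ∞) φ → HasCompactSupport φ →
      ∫ x, φ x • r x = 0 := by
    intro φ hφ1 hφ2
    have hφ : IsTest φ := ⟨hφ1, hφ2⟩
    have e1 := hw.eq1 φ hφ
    have hc := continuous_om
    have hc' := continuous_om'
    have hc'' : Continuous om'' := by unfold om''; fun_prop
    have i1 : Integrable (fun x => a * om' x * deriv φ x) volume :=
      int_mul_test (continuous_om'.const_mul a).locallyIntegrable hφ.der
    have i2 : Integrable (fun x => l1 * (a * om x * φ x)) volume :=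
      (int_mul_test (continuous_om.const_mul a).locallyIntegrable hφ).const_mul l1
    have e2 : ∫ x, a * om' x * deriv φ x = -∫ x, a * om'' x * φ x :=
      parts (fun x => (om'_deriv x).const_mul a) (hc''.const_mul a) hφ
    have i3 : Integrable (fun x => a * om'' x * φ x) volume :=
      int_mul_test (hc''.const_mul a).locallyIntegrable hφ
    have i4 : Integrable (fun x => (k ^ 2 * (a * om x) ^ 3 + k * (a * om x * (s * om x) ^ 2)) * φ x)
        volume := int_mul_test (Continuous.locallyIntegrable (by fun_prop)) hφ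
    rw [integral_add i1 i2, e2] at e1
    have e3 : ∫ x, φ x • r x = a⁻¹ * ((-∫ x, a * om'' x * φ x) + (∫ x, l1 * (a * om x * φ x)) -
        ∫ x, (k ^ 2 * (a * om x) ^ 3 + k * (a * om x * (s * om x) ^ 2)) * φ x) := by
      have i5 : Integrable (fun x => -(a * om'' x * φ x)) volume := i3.neg
      have i6 : Integrable (fun x => -(a * om'' x * φ x) + l1 * (a * om x * φ x)) volume :=
        i5.add i2
      rw [← integral_neg, ← integral_add i5 i2, ← integral_sub i6 i4, ← integral_const_mul]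
      refine integral_congr_ae (Eventually.of_forall fun x => ?_)
      simp only [smul_eq_mul]
      have h5 : (k ^ 2 * (a * om x) ^ 3 + k * (a * om x * (s * om x) ^ 2)) =
          a * k * om x ^ 3 * (k * a ^ 2 + s ^ 2) := by ring
      rw [h5, h, hl, hr]
      unfold om''
      field_simp
      ring
    rw [e3]
    have : (-∫ x, a * om'' x * φ x) + (∫ x, l1 * (a * om x * φ x)) -
        ∫ x, (k ^ 2 * (a * om x) ^ 3 + k * (a * om x * (s * om x) ^ 2)) * φ x = 0 := by
      linarith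
    rw [this, mul_zero]
  have h2 := ae_eq_zero_of_integral_contDiff_smul_eq_zero hrc.locallyIntegrable h1
  have h3 : r = 0 := Continuous.ae_eq_iff_eq volume hrc continuous_zero |>.1 h2
  have h4 := congrFun h3 0
  simp only [hr, om_zero, Pi.zero_apply] at h4
  have h5 : √2 ^ 3 = 2 * √2 := by rw [pow_succ, s2]
  rw [h5] at h4
  have h6 : 0 < √2 := by positivity
  have h7 : (k - 1) * (-(2 / 3) * √2) = 0 := by linarith
  rcases mul_eq_zero.1 h7 with h8 | h8
  · exact hk1 (by linarith)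
  · nlinarith

/-- **Minimizers on the Nehari-type set which are not solutions.** -/
theorem result (l1 : ℝ) (hl0 : 0 < l1) (hl1 : l1 ≠ 1) :
    ∃ m1 β : ℝ, 0 < m1 ∧ 0 < β ∧ β = √(m1 * 1) ∧
      ∀ c s : ℝ, 0 < c → 0 < s → c ^ 2 + s ^ 2 = 1 →
        ∃ u u' v v' : ℝ → ℝ,
          (∀ x, u x = c / √β * (√2 / Real.cosh x)) ∧ (∀ x, v x = s * (√2 / Real.cosh x)) ∧
          InNehari l1 1 m1 1 β u u' v v' ∧
          (∀ w w' z z' : ℝ → ℝ, InNehari l1 1 m1 1 β w w' z z' →
            energy l1 1 m1 1 β u u' v v' ≤ energy l1 1 m1 1 β w w' z z') ∧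
          ¬ IsWeakSol l1 1 m1 1 β u u' v v' := by
  set k : ℝ := (1 + 3 * l1) / 4 with hk
  have hk0 : 0 < k := by positivity
  have hl : l1 = (4 * k - 1) / 3 := by rw [hk]; ring
  refine ⟨k ^ 2, k, by positivity, hk0, by rw [mul_one, Real.sqrt_sq hk0.le], ?_⟩
  intro c s hc hs hcs
  have hk1 : k ≠ 1 := by
    intro h1; rw [hk] at h1; apply hl1; linarith
  have ha : 0 < c / √k := by positivity
  have h : k * (c / √k) ^ 2 + s ^ 2 = 1 := by
    rw [div_pow, Real.sq_sqrt hk0.le]
    field_simp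
    linarith
  refine ⟨fun x => c / √k * om x, fun x => c / √k * om' x, fun x => s * om x,
    fun x => s * om' x, fun x => ?_, fun x => ?_, example_nehari hl ha hs h, ?_,
    example_not_sol hk1 hl ha h⟩
  · show _ * (√2 * _) = _
    ring
  · show _ * (√2 * _) = _
    ring
  · intro w w' z z' hw
    rw [example_energy hl h]
    exact lower hk0 hw

end Pool.Agent.Results.MP_a38b16_an.NotNaturalConstraint
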